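import Pool.Agent.Helper18.FF3.Stmts

/-!
# Module TRF: the transfer to all primes
-/

set_option autoImplicit false

namespace Pool.Agent.Helper18.FF3

open Polynomial Pool.Agent.Helper14.BSC Pool.Agent.Helper60.FF

theorem trf_fam {k Ω : Type} [Field k] [Field Ω] [Algebra k Ω] (D : Sec k Ω) (k₁ : Type)
    [Field k₁] [Algebra k₁ k] (p : ℕ) [Fact p.Prime] (T : TS k k₁ p) (i₀ : Fin T.n)
    (σ : k →+* ℂ_[p]) (hi : T.σ i₀ = σ) (P : Place D p σ) (t : LL D) (h : t ∈ P.C)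
    (ex : ∀ i, Nonempty (Place D p (T.σ i))) :
    ∃ Q : ∀ i, Place D p (T.σ i), ∃ h' : t ∈ (Q i₀).C, (Q i₀).φ ⟨t, h'⟩ = P.φ ⟨t, h⟩ := by
  subst hi
  have h1 : (Function.update (fun i => Classical.choice (ex i)) i₀ P) i₀ = P :=
    Function.update_self _ _ _
  refine ⟨Function.update (fun i => Classical.choice (ex i)) i₀ P, ?_⟩
  rw [h1]
  exact ⟨h, rfl⟩

theorem trf_alg {K : Type} [Field K] (X X' c1 c2 d1 d2 r1 r2 s1 s2 : K) (h1 : X * c2 = c1)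
    (h2 : X' * d2 = d1) (hr2 : r2 ≠ 0) (hs2 : s2 ≠ 0)
    (h : X * (s1 / s2) = X' * (r1 / r2)) :
    c1 * r2 * (d2 * s1) = c2 * r1 * (d1 * s2) := by
  subst h1 h2
  field_simp at h
  calc X * c2 * r2 * (d2 * s1) = (X * s1 * r2) * (c2 * d2) := by ring
    _ = (s2 * X' * r1) * (c2 * d2) := by rw [h]
    _ = c2 * r1 * (X' * d2 * s2) := by ring

/-- the module statement -/
theorem st_TRF (hBET : ST_BET) (hVAL : ST_VAL) (hSHA : ST_SHA) (hEND : ST_END)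
    (hTSX : ST_TSX) (hRK : ST_RK) : ST_TRF := by
  classical
  intro F k Ω _ _ _ _ _ _ _ _ _ D t ρ ht hρ hRB p _ σ hσ P h
  obtain ⟨E, hE, hσE⟩ := hσ
  -- translations
  have hs : ∀ a : ℕ, ∃ s : RatFunc F →+* RatFunc F, (∀ x : F, s (RatFunc.C x) = RatFunc.C x) ∧
      s RatFunc.X = RatFunc.X + (a : RatFunc F) ∧ (a = 0 → s = RingHom.id _) := by
    intro a
    by_cases ha : a = 0
    · refine ⟨RingHom.id _, fun x => rfl, ?_, fun _ => rfl⟩
      rw [ha]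
      simp
    · obtain ⟨s, h1, h2⟩ := hSHA F (a : F)
      refine ⟨s, h1, ?_, fun h => absurd h ha⟩
      rw [h2, map_natCast]
  choose s hs1 hs2 hs3 using hs
  set j : ℕ → (RatFunc F →+* ℂ_[p]) := fun a =>
    (σ.comp (algebraMap (RatFunc F) k)).comp (s a) with hj
  have hj0 : j 0 = σ.comp (algebraMap (RatFunc F) k) := by
    rw [hj]
    simp only
    rw [hs3 0 rfl]
    exact RingHom.comp_id _
  have hjC : ∀ (a : ℕ) (x : F), j a (RatFunc.C x) = j 0 (RatFunc.C x) := by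
    intro a x
    rw [hj]
    simp only [RingHom.comp_apply, hs1]
  have hjX : ∀ a : ℕ, j a RatFunc.X = j 0 RatFunc.X + (a : ℂ_[p]) := by
    intro a
    rw [hj]
    simp only [RingHom.comp_apply, hs2, map_add, map_natCast, Nat.cast_zero, add_zero]
  have hjE : ∀ a x, j a x ∈ E := fun a x => hσE _
  -- the data
  have hdata : ∀ a : ℕ, ∃ (T : TS k (RatFunc F) p) (Q : ∀ i, Place D p (T.σ i))
      (χ : Polynomial ℂ_[p]), T.j = j a ∧ χ ≠ 0 ∧ χ.natDegree ≤ Module.finrank (RatFunc F) k ∧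
      (a = 0 → χ.eval (P.φ ⟨t, h⟩) = 0) ∧
      ∀ c c' : RatFunc F, χ.eval (T.j c) ≠ 0 → χ.eval (T.j c') ≠ 0 →
        ∃ hx : ∀ i, (t - algebraMap k (LL D) (algebraMap (RatFunc F) k c)) /
            (t - algebraMap k (LL D) (algebraMap (RatFunc F) k c')) ∈ (Q i).C,
          (∀ i, (Q i).φ ⟨_, hx i⟩ ≠ 0) ∧
          (∏ i, (Q i).φ ⟨_, hx i⟩) * χ.eval (T.j c') = χ.eval (T.j c) := by
    intro a
    obtain ⟨T, hT1, hT2, _⟩ := hTSX k (RatFunc F) p (j a) E hE (hjE a)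
    have hex : ∀ i, Nonempty (Place D p (T.σ i)) := by
      intro i
      obtain ⟨E₁, hE₁, hm⟩ := T.fin
      obtain ⟨Q, _⟩ := hRK k Ω D p (T.σ i) E₁ hE₁ (hm i)
      exact ⟨Q⟩
    by_cases ha : a = 0
    · have hσ0 : ∀ x, σ (algebraMap (RatFunc F) k x) = j a x := by
        intro x
        rw [ha, hj0]
        rfl
      obtain ⟨i₀, hi₀⟩ := hT2 σ hσ0
      obtain ⟨Q, h', hQ⟩ := trf_fam D (RatFunc F) p T i₀ σ hi₀ P t h hex
      obtain ⟨χ, hχ0, hχn, hχr, hχ⟩ := hVAL k Ω D (RatFunc F) p T Q t ht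
      refine ⟨T, Q, χ, hT1, hχ0, ?_, ?_, hχ⟩
      · rw [← T.deg]
        exact hχn
      · intro _
        rw [← hQ]
        exact hχr i₀ h'
    · obtain ⟨χ, hχ0, hχn, hχr, hχ⟩ := hVAL k Ω D (RatFunc F) p T
        (fun i => Classical.choice (hex i)) t ht
      refine ⟨T, fun i => Classical.choice (hex i), χ, hT1, hχ0, ?_, fun h0 => absurd h0 ha, hχ⟩
      rw [← T.deg]
      exact hχn
  choose T Q χ hT hχ0 hχn hχr hχ using hdata
  have key := hEND F ℂ_[p] (Module.finrank (RatFunc F) k) j ρ χ hjC hjX hρ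
    (fun a => ⟨hχ0 a, hχn a⟩) ?_ 0 (P.φ ⟨t, h⟩) (hχr 0 rfl)
  · rw [hj0] at key
    rw [Polynomial.map_map]
    exact key
  · intro a a' c c' hc hc' h1 h2 h3 h4
    rw [← hT a] at h1 h2 ⊢
    rw [← hT a'] at h3 h4 ⊢
    obtain ⟨hx, hx0, hxp⟩ := hχ a c c' h1 h2
    obtain ⟨hy, hy0, hyp⟩ := hχ a' c c' h3 h4
    have hr : ρ.eval c / ρ.eval c' ≠ 0 := div_ne_zero hc hc'
    have hb := hBET F k Ω D p (T a) (T a') (Q a) (Q a') (by
      intro x
      rw [hT a, hT a', hjC a, hjC a']) _ _ hr (hRB c c' hc hc') hx hy hx0 hy0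
    rw [map_div₀, map_div₀] at hb
    exact trf_alg _ _ _ _ _ _ _ _ _ _ hxp hyp
      ((_root_.map_ne_zero _).2 hc') ((_root_.map_ne_zero _).2 hc') hb

end Pool.Agent.Helper18.FF3
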